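import Pool.Agent.P8H30.MX.Stm
import Pool.Agent.P8H85.MX.SdhCore

/-! Packages SDH and WDC of project MX. -/

set_option autoImplicit false

open PowerSeries Module Matrix

namespace Pool.Agent.P8H85.MX

open Pool.Agent.P8H30.MX
open Pool.Agent.Y113 (ps SDc Cv)
open Pool.Agent.Y119.HY (Am um uc ec Jm kx aq hq Hq Hc Hf Yf E om tv Sol Lens Gal cm QD QB a0 hps)
open Pool.Agent.Y119.HZ (Hp Wp T1 A1 ix evq hf km th)

theorem qg_mul {s n : ℕ} {Q : Polynomial ℚ} (hQ : QD n Q) :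
    QG (s + n) (Polynomial.X ^ s * Q) where
  two := by have := hQ.two; omega
  monic := (Polynomial.monic_X_pow s).mul hQ.monic
  deg := by
    rw [(Polynomial.monic_X_pow s).natDegree_mul hQ.monic, Polynomial.natDegree_X_pow, hQ.deg]

theorem hp_growth {n : ℕ} {Q : Polynomial ℚ} (h : Sol (cm (Am n)) (cm (Pool.Agent.Y119.HY.Bm n Q)) (Hc n Q))
    (i j : Fin n) : ∃ A : ℝ, ∀ k, |((coeff k (Hp n Q i j) : ℚ) : ℝ)| ≤ A ^ (k + 1) := by
  obtain ⟨A, hA⟩ := (h.growth Pool.Agent.Y119.HY.Ac_nil i j).exp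
  refine ⟨A, fun k => ?_⟩
  have h1 := hA k
  unfold Hc at h1
  rw [Pool.Agent.Y119.HY.cm_apply] at h1
  have h2 : coeff k (Hp n Q i j) = Hq n Q k i j := by
    unfold Hp hps
    rw [Matrix.of_apply, PowerSeries.coeff_mk]
    rfl
  rw [h2]
  refine le_trans (le_of_eq ?_) h1
  have e1 : ((Hq n Q k i j : ℚ) : ℂ) = (((Hq n Q k i j : ℚ) : ℝ) : ℂ) := by push_cast; rfl
  rw [e1, Complex.norm_real, Real.norm_eq_abs]

theorem sdh : S_BLK → S_SOL → S_SDH := by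
  intro hB hS s m β hβ hQ i j
  refine Pool.Agent.Y119.HY.sdc_of ?_ ?_
  · have h1 : HC s (2 * m) (QB β) i j =
        Hp (s + 2 * m) (Polynomial.X ^ s * QB β) (Fin.castAdd (2 * m) i) (Fin.natAdd s j) := by
      rw [hB s (2 * m) (QB β), bl_right]
    rw [h1]
    exact hp_growth (hS (s + 2 * m) _ (qg_mul hQ)) _ _
  · obtain ⟨A, hA⟩ := hc_den hβ s
    refine ⟨A, fun K => ?_⟩
    obtain ⟨d, hd0, hd, hd'⟩ := hA K
    refine ⟨d, hd0, hd, fun k hk => ?_⟩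
    unfold HC
    rw [Matrix.of_apply, PowerSeries.coeff_mk]
    exact hd' k hk (s - (i : ℕ)) j (Nat.sub_le _ _) j.2

theorem SDc_neg {f : ℚ⟦X⟧} (h : SDc f) : SDc (-f) := by
  have h1 := (Pool.Agent.Y119.HZ.SDc_C (-1)).mul h
  rwa [map_neg, map_one, neg_one_mul] at h1

theorem SDc_zero : SDc (0 : ℚ⟦X⟧) := by
  have h1 := Pool.Agent.Y119.HZ.SDc_C 0
  rwa [map_zero] at h1

theorem SDc_bl {s n : ℕ} {a : Matrix (Fin s) (Fin s) ℚ⟦X⟧} {b : Matrix (Fin s) (Fin n) ℚ⟦X⟧}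
    {g : Matrix (Fin n) (Fin n) ℚ⟦X⟧} (ha : ∀ i j, SDc (a i j)) (hb : ∀ i j, SDc (b i j))
    (hg : ∀ i j, SDc (g i j)) (i j : Fin (s + n)) : SDc (bl a b g i j) := by
  refine Fin.addCases (fun i' => ?_) (fun i' => ?_) i <;>
    refine Fin.addCases (fun j' => ?_) (fun j' => ?_) j
  · rw [bl_castAdd]; exact ha _ _
  · rw [bl_right]; exact hb _ _
  · rw [bl_left]; exact SDc_zero
  · rw [bl_natAdd]; exact hg _ _

theorem SDc_one' {s : ℕ} (i j : Fin s) : SDc ((1 : Matrix (Fin s) (Fin s) ℚ⟦X⟧) i j) := by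
  rw [Matrix.one_apply]
  split_ifs
  · exact Pool.Agent.Y113.SDc.one
  · exact SDc_zero

theorem wdc : S_BLK → S_WDC := by
  intro hB s n Q hQ h1 h2
  have hW : ∀ i j, SDc (Wp n Q i j) := Pool.Agent.Y119.HZ.SDc_Wp h1
  refine ⟨?_, ?_, ?_⟩
  · rw [hB]
    unfold Wd
    rw [bl_mul, Matrix.one_mul, Matrix.one_mul, neg_add_cancel, Pool.Agent.Y119.HZ.mul_Wp hQ, bl_one]
  · intro i j
    rw [hB]
    exact SDc_bl SDc_one' h2 h1 i j
  · intro i j
    unfold Wd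
    refine SDc_bl SDc_one' (fun i j => ?_) hW i j
    rw [Matrix.neg_apply, Matrix.mul_apply]
    exact SDc_neg (Pool.Agent.Y119.HZ.SDc.sum' _ fun l _ => (h2 i l).mul (hW l j))

end Pool.Agent.P8H85.MX
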